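import Pool.Agent.Lib.MP_5d2315_pr.Final

/-!
# The typical width of a monochromatic interval is of order `√t`
-/

namespace Pool.Agent.Results.MP_5d2315_pr.WidthOrder

open MeasureTheory ProbabilityTheory Filter Topology
open Pool.Agent.Lib.MP_5d2315_pr

/-- For the two-type competing urn scheme on the integers started from one ball per site with
independent fair colours, the width of the monochromatic interval at the origin is of order `√t`:
it is between `c √t` and `C √t` with probability as close to one as desired, uniformly for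
all large times.  Hence the width is not of order `√(t / log t)`: the probability that it is
between `c √(t / log t)` and `C √(t / log t)` tends to zero for all constants. -/
theorem result :
    (∀ ε : ℝ, 0 < ε → ∃ c C t₀ : ℝ, 0 < c ∧ c < C ∧
      ∀ {Ω : Type} {mΩ : MeasurableSpace Ω} {P : Measure Ω} {F : Filtration ℝ mΩ}
        {R : ℤ → ℕ → Ω → Set ℝ} {Y : ℝ → Ω → ℤ → ℤ} [IsProbabilityMeasure P],
        IsUrnProcess P F R Y → ∀ t : ℝ, t₀ ≤ t →
          P {ω | ¬ WidthBetween (Y t ω) (c * √t) (C * √t)} ≤ ENNReal.ofReal ε) ∧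
    (∀ {Ω : Type} {mΩ : MeasurableSpace Ω} {P : Measure Ω} {F : Filtration ℝ mΩ}
        {R : ℤ → ℕ → Ω → Set ℝ} {Y : ℝ → Ω → ℤ → ℤ} [IsProbabilityMeasure P],
        IsUrnProcess P F R Y → ∀ c C : ℝ, 0 < c → c < C →
          Tendsto (fun t : ℝ => P {ω | ∃ S, IsMonoInterval (Y t ω) S ∧ (0 : ℤ) ∈ S ∧
            c * √(t / Real.log t) ≤ (S.ncard : ℝ) ∧ (S.ncard : ℝ) ≤ C * √(t / Real.log t)})
            atTop (𝓝 0)) := by
  refine ⟨fun ε hε => ?_, ?_⟩
  · obtain ⟨c, C, t₀, h0, h1, h2⟩ := width_order hε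
    exact ⟨c, C, t₀, h0, h1, fun {Ω mΩ P F R Y} _ h t ht => h2 h t ht⟩
  · intro Ω mΩ P F R Y _ h c C hc hcC
    rw [ENNReal.tendsto_nhds_zero]
    intro ε hε
    obtain ⟨δ, hδ0, hδ⟩ : ∃ δ : ℝ, 0 < δ ∧ ENNReal.ofReal δ ≤ ε := by
      by_cases htop : ε = ⊤
      · exact ⟨1, one_pos, by rw [htop]; exact le_top⟩
      · exact ⟨ε.toReal, ENNReal.toReal_pos hε.ne' htop, ENNReal.ofReal_toReal_le⟩
    obtain ⟨c', C', t₀, h0, h1, h2⟩ := width_order hδ0
    have hlog : ∀ᶠ t : ℝ in atTop, (C / c') ^ 2 < Real.log t :=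
      Real.tendsto_log_atTop.eventually_gt_atTop _
    filter_upwards [hlog, eventually_ge_atTop t₀, eventually_gt_atTop 1] with t h3 h4 h5
    refine (measure_mono ?_).trans ((h2 h t h4).trans hδ)
    rintro ω ⟨S, hS1, hS2, _, hS4⟩ hW
    obtain ⟨_, hlow, _⟩ := hW.2 S hS1 hS2
    have hC0 : 0 < C := hc.trans hcC
    have hlog0 : 0 < Real.log t := lt_of_le_of_lt (sq_nonneg _) h3
    have hst : 0 < √t := Real.sqrt_pos.2 (by linarith)
    have hsl : 0 < √(Real.log t) := Real.sqrt_pos.2 hlog0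
    have h6 : C / c' < √(Real.log t) := by
      rw [← Real.sqrt_sq (by positivity : 0 ≤ C / c')]
      exact Real.sqrt_lt_sqrt (sq_nonneg _) h3
    have h7 : C * √(t / Real.log t) < c' * √t := by
      rw [Real.sqrt_div (by linarith), ← mul_div_assoc, div_lt_iff₀ hsl]
      rw [div_lt_iff₀ h0] at h6
      calc C * √t < (√(Real.log t) * c') * √t := by gcongr
        _ = c' * √t * √(Real.log t) := by ring
    linarith

end Pool.Agent.Results.MP_5d2315_pr.WidthOrder
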